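import Mathlib

/-!
# The largest gap between the strong vertex span and the strong edge span is one

Upper bound: let two walkers visit all the vertices while keeping a distance of at least `m`. If one of them stands still
while the other one goes to a neighbour and back, the distance is at least `m - 1`. After insertion of all these detours both
walkers traverse all the edges. Lower bound: a graph with six vertices and nine edges, whose strong vertex span is `2` and
whose strong edge span is `1`.
-/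

set_option autoImplicit false

namespace Pool.Agent.Results.MP_5796a1_co.GapOne

open SimpleGraph

/-- A weak homomorphism `f : V(G) → V(H)`: for every edge `u v` of `G` either `f u = f v` or `f u`, `f v` are adjacent in `H`. -/
def IsWeakHom {V W : Type} (G : SimpleGraph V) (H : SimpleGraph W) (f : V → W) : Prop :=
  ∀ u v, G.Adj u v → f u = f v ∨ H.Adj (f u) (f v)

/-- An edge surjective map: it is surjective and every edge `u v` of `H` arises as `u = f x`, `v = f y` for some edge
`x y` of `G`. -/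
def EdgeSurjective {V W : Type} (G : SimpleGraph V) (H : SimpleGraph W) (f : V → W) : Prop :=
  Function.Surjective f ∧ ∀ u v, H.Adj u v → ∃ x y, G.Adj x y ∧ f x = u ∧ f y = v

/-- `m(f, g)`: the minimum of the distances `d_H (f u, g u)`. -/
noncomputable def minDist {V W : Type} (H : SimpleGraph W) (f g : V → W) : ℕ :=
  sInf (Set.range fun u => H.dist (f u) (g u))

/-- The strong vertex span: the maximum of `m(f, g)` over all paths `P` (with `n + 1` vertices) and all pairs of surjective
weak homomorphisms `f, g : P → H`. -/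
noncomputable def vertexSpan {W : Type} (H : SimpleGraph W) : ℕ :=
  sSup {m | ∃ (n : ℕ) (f g : Fin (n + 1) → W), IsWeakHom (pathGraph (n + 1)) H f ∧ IsWeakHom (pathGraph (n + 1)) H g ∧
    Function.Surjective f ∧ Function.Surjective g ∧ m = minDist H f g}

/-- The strong edge span: the maximum of `m(f, g)` over all paths `P` (with `n + 1` vertices) and all pairs of edge surjective
weak homomorphisms `f, g : P → H`. -/
noncomputable def edgeSpan {W : Type} (H : SimpleGraph W) : ℕ :=
  sSup {m | ∃ (n : ℕ) (f g : Fin (n + 1) → W), IsWeakHom (pathGraph (n + 1)) H f ∧ IsWeakHom (pathGraph (n + 1)) H g ∧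
    EdgeSurjective (pathGraph (n + 1)) H f ∧ EdgeSurjective (pathGraph (n + 1)) H g ∧ m = minDist H f g}

lemma minDist_le {V W : Type} (H : SimpleGraph W) (f g : V → W) (u : V) : minDist H f g ≤ H.dist (f u) (g u) :=
  Nat.sInf_le ⟨u, rfl⟩

lemma le_minDist {V W : Type} [Nonempty V] (H : SimpleGraph W) (f g : V → W) (m : ℕ)
    (h : ∀ u, m ≤ H.dist (f u) (g u)) : m ≤ minDist H f g := by
  apply le_csInf (Set.range_nonempty _)
  rintro _ ⟨u, rfl⟩
  exact h u

lemma dist_bdd {W : Type} [Finite W] (H : SimpleGraph W) : ∃ B, ∀ u v, H.dist u v ≤ B := by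
  have h : (Set.range fun p : W × W => H.dist p.1 p.2).Finite := Set.finite_range _
  obtain ⟨B, hB⟩ := h.bddAbove
  exact ⟨B, fun u v => hB ⟨(u, v), rfl⟩⟩

lemma bdd_vertex {W : Type} [Finite W] (H : SimpleGraph W) :
    BddAbove {m | ∃ (n : ℕ) (f g : Fin (n + 1) → W), IsWeakHom (pathGraph (n + 1)) H f ∧
      IsWeakHom (pathGraph (n + 1)) H g ∧ Function.Surjective f ∧ Function.Surjective g ∧ m = minDist H f g} := by
  obtain ⟨B, hB⟩ := dist_bdd H
  refine ⟨B, ?_⟩
  rintro m ⟨n, f, g, _, _, _, _, rfl⟩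
  exact (minDist_le H f g 0).trans (hB _ _)

lemma bdd_edge {W : Type} [Finite W] (H : SimpleGraph W) :
    BddAbove {m | ∃ (n : ℕ) (f g : Fin (n + 1) → W), IsWeakHom (pathGraph (n + 1)) H f ∧
      IsWeakHom (pathGraph (n + 1)) H g ∧ EdgeSurjective (pathGraph (n + 1)) H f ∧
      EdgeSurjective (pathGraph (n + 1)) H g ∧ m = minDist H f g} := by
  obtain ⟨B, hB⟩ := dist_bdd H
  refine ⟨B, ?_⟩
  rintro m ⟨n, f, g, _, _, _, _, rfl⟩
  exact (minDist_le H f g 0).trans (hB _ _)

/-! ### tours -/

lemma tour_vert {α : Type} (G : SimpleGraph α) (a : α) (M : List α) (hM : ∀ v ∈ M, G.Reachable a v) :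
    ∃ (b : α) (w : G.Walk a b), ∀ v ∈ M, v ∈ w.support := by
  induction M with
  | nil => exact ⟨a, Walk.nil, by simp⟩
  | cons v M ih =>
    obtain ⟨b, w, hw⟩ := ih (fun v hv => hM v (List.mem_cons_of_mem _ hv))
    obtain ⟨p⟩ : G.Reachable b v := (w.reachable.symm).trans (hM v List.mem_cons_self)
    refine ⟨v, w.append p, ?_⟩
    intro x hx
    rw [List.mem_cons] at hx
    rcases hx with rfl | hx
    · exact Walk.end_mem_support _
    · rw [Walk.mem_support_append_iff]
      exact Or.inl (hw x hx)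

lemma tour {α : Type} (G : SimpleGraph α) (a : α) (M : List α) (hM : ∀ v ∈ M, G.Reachable a v)
    (L : List G.Dart) (hL : ∀ d ∈ L, G.Reachable a d.fst) :
    ∃ (b : α) (w : G.Walk a b), (∀ v ∈ M, v ∈ w.support) ∧ ∀ d ∈ L, d ∈ w.darts := by
  induction L with
  | nil =>
    obtain ⟨b, w, hw⟩ := tour_vert G a M hM
    exact ⟨b, w, hw, by simp⟩
  | cons d L ih =>
    obtain ⟨b, w, hw, hw2⟩ := ih (fun v hv => hL v (List.mem_cons_of_mem _ hv))
    obtain ⟨p⟩ : G.Reachable b d.fst := (w.reachable.symm).trans (hL d List.mem_cons_self)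
    refine ⟨d.snd, w.append (p.append (Walk.cons d.adj Walk.nil)), ?_, ?_⟩
    · intro v hv
      rw [Walk.mem_support_append_iff]
      exact Or.inl (hw v hv)
    · intro x hx
      rw [List.mem_cons] at hx
      rw [Walk.darts_append, Walk.darts_append, List.mem_append, List.mem_append]
      rcases hx with rfl | hx
      · exact Or.inr (Or.inr (by simp))
      · exact Or.inl (hw2 x hx)

/-- The graph of the positions of the two walkers at a distance of at least `k`. -/
def St {W : Type} (H : SimpleGraph W) (k : ℕ) : SimpleGraph (W × W) where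
  Adj p q := p ≠ q ∧ (p.1 = q.1 ∨ H.Adj p.1 q.1) ∧ (p.2 = q.2 ∨ H.Adj p.2 q.2) ∧
    k ≤ H.dist p.1 p.2 ∧ k ≤ H.dist q.1 q.2
  symm := ⟨by
    rintro p q ⟨h1, h2, h3, h4, h5⟩
    refine ⟨h1.symm, ?_, ?_, h5, h4⟩
    · rcases h2 with h | h
      · exact Or.inl h.symm
      · exact Or.inr h.symm
    · rcases h3 with h | h
      · exact Or.inl h.symm
      · exact Or.inr h.symm⟩
  loopless := ⟨fun p h => h.1 rfl⟩

/-- the upper bound -/
lemma vertexSpan_le {W : Type} [Finite W] (H : SimpleGraph W) (hH : H.Connected) :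
    vertexSpan H ≤ edgeSpan H + 1 := by
  classical
  cases nonempty_fintype W
  rcases Nat.eq_zero_or_pos (vertexSpan H) with h0 | h0
  · omega
  have hmem : vertexSpan H ∈ {m | ∃ (n : ℕ) (f g : Fin (n + 1) → W), IsWeakHom (pathGraph (n + 1)) H f ∧
      IsWeakHom (pathGraph (n + 1)) H g ∧ Function.Surjective f ∧ Function.Surjective g ∧ m = minDist H f g} := by
    apply Nat.sSup_mem _ (bdd_vertex H)
    by_contra hemp
    rw [Set.not_nonempty_iff_eq_empty] at hemp
    unfold vertexSpan at h0
    rw [hemp] at h0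
    simp at h0
  obtain ⟨n, f, g, hf, hg, hfs, hgs, hm⟩ := hmem
  set m := vertexSpan H with hmdef
  have hd : ∀ i, m ≤ H.dist (f i) (g i) := fun i => hm ▸ minDist_le H f g i
  -- the distance decreases by at most one
  have hd1 : ∀ x y z, H.Adj x y → H.dist x z ≤ H.dist y z + 1 := by
    intro x y z hxy
    have h1 := hH.dist_triangle (u := x) (v := y) (w := z)
    have h2 : H.dist x y = 1 := dist_eq_one_iff_adj.2 hxy
    omega
  have hd2 : ∀ x y z, H.Adj x y → H.dist z x ≤ H.dist z y + 1 := by
    intro x y z hxy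
    rw [dist_comm, dist_comm (u := z)]
    exact hd1 x y z hxy
  -- all positions are reachable
  have hreach : ∀ i : ℕ, ∀ hi : i < n + 1,
      (St H (m - 1)).Reachable (f 0, g 0) (f ⟨i, hi⟩, g ⟨i, hi⟩) := by
    intro i
    induction i with
    | zero => intro hi; exact Reachable.refl _
    | succ i ih =>
      intro hi
      have h1 := ih (by omega)
      have hadj : (pathGraph (n + 1)).Adj ⟨i, by omega⟩ ⟨i + 1, hi⟩ := by
        rw [pathGraph_adj]
        left
        rfl
      by_cases heq : (f ⟨i, by omega⟩, g ⟨i, by omega⟩) = (f ⟨i + 1, hi⟩, g ⟨i + 1, hi⟩)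
      · rw [← heq]
        exact h1
      · refine h1.trans (Adj.reachable ⟨heq, hf _ _ hadj, hg _ _ hadj, ?_, ?_⟩)
        · have := hd ⟨i, by omega⟩
          simp only
          omega
        · have := hd ⟨i + 1, hi⟩
          simp only
          omega
  have hreach' : ∀ i, (St H (m - 1)).Reachable (f 0, g 0) (f i, g i) := fun i => hreach i.1 i.2
  -- the required darts
  have hA : ∀ e : H.Dart, ∃ d : (St H (m - 1)).Dart, (St H (m - 1)).Reachable (f 0, g 0) d.fst ∧
      d.fst.1 = e.fst ∧ d.snd.1 = e.snd := by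
    intro e
    obtain ⟨i, hi⟩ := hfs e.fst
    have hadj := e.adj
    have h1 := hd i
    rw [hi] at h1
    have h2 := hd1 _ _ (g i) hadj
    refine ⟨⟨((e.fst, g i), (e.snd, g i)), ⟨?_, Or.inr hadj, Or.inl rfl, ?_, ?_⟩⟩, ?_, rfl, rfl⟩
    · intro h
      exact hadj.ne (congrArg Prod.fst h)
    · simp only; omega
    · simp only; omega
    · have := hreach' i
      rw [hi] at this
      exact this
  have hB : ∀ e : H.Dart, ∃ d : (St H (m - 1)).Dart, (St H (m - 1)).Reachable (f 0, g 0) d.fst ∧
      d.fst.2 = e.fst ∧ d.snd.2 = e.snd := by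
    intro e
    obtain ⟨i, hi⟩ := hgs e.fst
    have hadj := e.adj
    have h1 := hd i
    rw [hi] at h1
    have h2 := hd2 _ _ (f i) hadj
    refine ⟨⟨((f i, e.fst), (f i, e.snd)), ⟨?_, Or.inl rfl, Or.inr hadj, ?_, ?_⟩⟩, ?_, rfl, rfl⟩
    · intro h
      exact hadj.ne (congrArg Prod.snd h)
    · simp only; omega
    · simp only; omega
    · have := hreach' i
      rw [hi] at this
      exact this
  choose dA hdA1 hdA2 hdA3 using hA
  choose dB hdB1 hdB2 hdB3 using hB
  have : Fintype H.Dart := Fintype.ofFinite _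
  obtain ⟨b, w, hwM, hwL⟩ := tour (St H (m - 1)) (f 0, g 0)
    ((List.finRange (n + 1)).map fun i => (f i, g i)) (by
      intro v hv
      rw [List.mem_map] at hv
      obtain ⟨i, _, rfl⟩ := hv
      exact hreach' i)
    ((Finset.univ : Finset H.Dart).toList.map dA ++ (Finset.univ : Finset H.Dart).toList.map dB) (by
      intro d hd
      rw [List.mem_append, List.mem_map, List.mem_map] at hd
      rcases hd with ⟨e, _, rfl⟩ | ⟨e, _, rfl⟩
      · exact hdA1 e
      · exact hdB1 e)
  -- the new walks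
  have hstep : ∀ i j : Fin (w.length + 1), (pathGraph (w.length + 1)).Adj i j →
      (St H (m - 1)).Adj (w.getVert i) (w.getVert j) := by
    intro i j hij
    rw [pathGraph_adj] at hij
    rcases hij with h | h
    · rw [← h]
      exact w.adj_getVert_succ (by omega)
    · rw [← h]
      exact (w.adj_getVert_succ (by omega)).symm
  have hvert : ∀ p ∈ w.support, ∃ i : Fin (w.length + 1), w.getVert i = p := by
    intro p hp
    obtain ⟨i, h1, h2⟩ := Walk.mem_support_iff_exists_getVert.1 hp
    exact ⟨⟨i, by omega⟩, h1⟩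
  have hdart : ∀ d ∈ w.darts, ∃ i j : Fin (w.length + 1), (pathGraph (w.length + 1)).Adj i j ∧
      w.getVert i = d.fst ∧ w.getVert j = d.snd := by
    intro d hd
    obtain ⟨i, hi, h1⟩ := List.getElem_of_mem hd
    rw [Walk.darts_getElem_eq_getVert] at h1
    have hi' : i < w.length := by rw [← Walk.length_darts]; exact hi
    refine ⟨⟨i, by omega⟩, ⟨i + 1, by omega⟩, ?_, ?_, ?_⟩
    · rw [pathGraph_adj]
      left
      rfl
    · rw [← h1]
    · rw [← h1]
  have hdist : ∀ p ∈ w.support, m - 1 ≤ H.dist p.1 p.2 := by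
    intro p hp
    obtain ⟨i, hi⟩ := hvert p hp
    rcases Nat.eq_zero_or_pos w.length with h | h
    · have hi0 : (i : ℕ) = 0 := by omega
      rw [hi0, Walk.getVert_zero] at hi
      rw [← hi]
      have := hd 0
      simp only
      omega
    · by_cases hlt : (i : ℕ) < w.length
      · have h1 := w.adj_getVert_succ hlt
        rw [hi] at h1
        exact h1.2.2.2.1
      · have hi2 : (i : ℕ) = (w.length - 1) + 1 := by omega
        have h1 := w.adj_getVert_succ (i := w.length - 1) (by omega)
        rw [← hi2, hi] at h1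
        exact h1.2.2.2.2
  have hkey : m - 1 ≤ minDist H (fun i : Fin (w.length + 1) => (w.getVert i).1)
      (fun i : Fin (w.length + 1) => (w.getVert i).2) := by
    apply le_minDist
    intro i
    exact hdist _ (Walk.getVert_mem_support _ _)
  have hedge : minDist H (fun i : Fin (w.length + 1) => (w.getVert i).1)
      (fun i : Fin (w.length + 1) => (w.getVert i).2) ≤ edgeSpan H := by
    apply le_csSup (bdd_edge H)
    refine ⟨w.length, _, _, ?_, ?_, ⟨?_, ?_⟩, ⟨?_, ?_⟩, rfl⟩
    · intro i j hij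
      exact (hstep i j hij).2.1
    · intro i j hij
      exact (hstep i j hij).2.2.1
    · intro v
      obtain ⟨i, hi⟩ := hfs v
      obtain ⟨j, hj⟩ := hvert _ (hwM (f i, g i) (List.mem_map.2 ⟨i, List.mem_finRange i, rfl⟩))
      exact ⟨j, by simp only [hj, hi]⟩
    · intro u v huv
      obtain ⟨i, j, h1, h2, h3⟩ := hdart _ (hwL (dA ⟨(u, v), huv⟩) (by simp))
      refine ⟨i, j, h1, ?_, ?_⟩
      · simp only [h2, hdA2]
      · simp only [h3, hdA3]
    · intro v
      obtain ⟨i, hi⟩ := hgs v
      obtain ⟨j, hj⟩ := hvert _ (hwM (f i, g i) (List.mem_map.2 ⟨i, List.mem_finRange i, rfl⟩))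
      exact ⟨j, by simp only [hj, hi]⟩
    · intro u v huv
      obtain ⟨i, j, h1, h2, h3⟩ := hdart _ (hwL (dB ⟨(u, v), huv⟩) (by simp))
      refine ⟨i, j, h1, ?_, ?_⟩
      · simp only [h2, hdB2]
      · simp only [h3, hdB3]
  omega

/-! ### the example -/

/-- The adjacency in the graph with the edges `01, 03, 04, 05, 12, 13, 14, 23, 24`. -/
def adjB (i j : Fin 6) : Bool :=
  decide ((i.val, j.val) ∈ [(0, 1), (0, 3), (0, 4), (0, 5), (1, 2), (1, 3), (1, 4), (2, 3), (2, 4)]) ||
  decide ((j.val, i.val) ∈ [(0, 1), (0, 3), (0, 4), (0, 5), (1, 2), (1, 3), (1, 4), (2, 3), (2, 4)])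

/-- The graph with six vertices and nine edges. -/
def G6 : SimpleGraph (Fin 6) where
  Adj i j := adjB i j = true
  symm := ⟨by decide⟩
  loopless := ⟨by decide⟩

instance : DecidableRel G6.Adj := fun i j => inferInstanceAs (Decidable (adjB i j = true))

lemma G6_connected : G6.Connected := by
  rw [connected_iff]
  refine ⟨?_, ⟨0⟩⟩
  have h0 : ∀ v : Fin 6, G6.Reachable 0 v := by
    intro v
    have h1 : ∀ v : Fin 6, v = 0 ∨ G6.Adj 0 v ∨ ∃ u, G6.Adj 0 u ∧ G6.Adj u v := by decide
    rcases h1 v with rfl | h | ⟨u, h, h'⟩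
    · exact Reachable.refl _
    · exact h.reachable
    · exact h.reachable.trans h'.reachable
  intro u v
  exact (h0 u).symm.trans (h0 v)

lemma two_le_dist {W : Type} (H : SimpleGraph W) (hH : H.Connected) (u v : W) :
    2 ≤ H.dist u v ↔ u ≠ v ∧ ¬ H.Adj u v := by
  constructor
  · intro h
    refine ⟨?_, ?_⟩
    · rintro rfl
      simp at h
    · intro h'
      rw [dist_eq_one_iff_adj.2 h'] at h
      omega
  · rintro ⟨h1, h2⟩
    have h3 : H.dist u v ≠ 0 := fun h => h1 (hH.dist_eq_zero_iff.1 h)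
    have h4 : H.dist u v ≠ 1 := fun h => h2 (dist_eq_one_iff_adj.1 h)
    omega

lemma G6_vertex : 2 ≤ vertexSpan G6 := by
  obtain ⟨f, hf⟩ : ∃ f : Fin 7 → Fin 6, f = ![1, 2, 3, 0, 4, 0, 5] := ⟨_, rfl⟩
  obtain ⟨g, hg⟩ : ∃ g : Fin 7 → Fin 6, g = ![5, 0, 4, 2, 3, 2, 1] := ⟨_, rfl⟩
  have hw : ∀ h : Fin 7 → Fin 6, (∀ i j : Fin 7, i.val + 1 = j.val → h i = h j ∨ G6.Adj (h i) (h j)) →
      IsWeakHom (pathGraph 7) G6 h := by
    intro h hh i j hij
    rw [pathGraph_adj] at hij
    rcases hij with h1 | h1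
    · exact hh i j h1
    · rcases hh j i h1 with h2 | h2
      · exact Or.inl h2.symm
      · exact Or.inr h2.symm
  have h1 : 2 ≤ minDist G6 f g := by
    apply le_minDist
    intro i
    rw [two_le_dist G6 G6_connected]
    subst hf hg
    revert i
    decide
  refine h1.trans (le_csSup (bdd_vertex G6) ⟨6, f, g, hw f ?_, hw g ?_, ?_, ?_, rfl⟩)
  · subst hf
    decide
  · subst hg
    decide
  · subst hf
    decide
  · subst hg
    decide

lemma G6_edge : edgeSpan G6 ≤ 1 := by
  unfold edgeSpan
  apply csSup_le'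
  rintro m ⟨n, f, g, hf, hg, hfe, hge, rfl⟩
  by_contra hcon
  push Not at hcon
  have hd : ∀ i, 2 ≤ G6.dist (f i) (g i) := fun i => le_trans hcon (minDist_le G6 f g i)
  obtain ⟨x, y, hxy, hx, hy⟩ := hfe.2 0 1 (by decide)
  have h1 := hd x
  have h2 := hd y
  rw [hx, two_le_dist G6 G6_connected] at h1
  rw [hy, two_le_dist G6 G6_connected] at h2
  have h3 := hg x y hxy
  generalize g x = p at h1 h3
  generalize g y = q at h2 h3
  revert p q
  decide

/-- The maximum of `σ_V(H) - σ_E(H)` over all finite connected graphs `H` is `1`. -/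
theorem result : IsGreatest {d : ℤ | ∃ (W : Type) (_ : Finite W) (H : SimpleGraph W), H.Connected ∧
    d = (vertexSpan H : ℤ) - (edgeSpan H : ℤ)} 1 := by
  constructor
  · refine ⟨Fin 6, inferInstance, G6, G6_connected, ?_⟩
    have h1 := G6_vertex
    have h2 := G6_edge
    have h3 := vertexSpan_le G6 G6_connected
    omega
  · rintro d ⟨W, _, H, hH, rfl⟩
    have := vertexSpan_le H hH
    omega

end Pool.Agent.Results.MP_5796a1_co.GapOne
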